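import Pool.Agent.Y84.ZD.D

/-!
# Coefficient domains of group rings without zero divisors

Let `G` be a group. We compare the group rings `D[G]` over all integral domains `D`. If `R[G]` has no
zero divisors for one domain `R`, then `ℤ[G]` has none. If `R[G]` has no zero divisors for a domain `R`
of characteristic `p ≥ 0` which contains an algebraically closed field, then `D[G]` has no zero divisors
for all domains `D` of characteristic `p`, and for all domains `D` of characteristic zero. Hence the
question whether the absence of zero divisors does not depend on the coefficient domain is equivalent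
to the question whether `k[G]` has no zero divisors if `ℤ[G]` has none, where `k` runs through the
algebraic closures of the prime fields of positive characteristic. Moreover, if `𝔽_p[G]` has no zero divisors for
almost all primes `p`, or only for a set of primes which is so large that every integral polynomial has
roots modulo arbitrarily large primes in the set, then `D[G]` has no zero divisors for all domains `D`
of characteristic zero.

The tools are specialisations (the Nullstellensatz) and places: if `V` is a valuation ring of the field
`L` with a homomorphism to a field `K`, and `K[G]` has no zero divisors, then `L[G]` has none.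
-/

set_option autoImplicit false

namespace Pool.Agent.Results.MP_b3f03e_al.ReductionToAlgebraicClosures

universe u v w z

/-- The positive answer to the question, for groups in the universe `u` and domains in the
universes `v` and `w`. -/
def Independence : Prop :=
  ∀ (G : Type u) [Group G] (R : Type v) [CommRing R] [IsDomain R] (D : Type w) [CommRing D]
    [IsDomain D], NoZeroDivisors (MonoidAlgebra R G) → NoZeroDivisors (MonoidAlgebra D G)

theorem nzd_iff (D : Type v) [CommRing D] (G : Type u) [Group G] :
    NoZeroDivisors (MonoidAlgebra D G) ↔ Pool.Agent.Y84.ZD.NZD D G := by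
  constructor
  · intro h a b hab
    exact mul_eq_zero.1 hab
  · intro h
    exact ⟨fun {a b} hab => h a b hab⟩

/-- (1) If `R[G]` has no zero divisors for some domain `R`, then `ℤ[G]` has none.
(2) If `R[G]` has no zero divisors for a domain `R` which contains an algebraically closed field `K`,
then `D[G]` has no zero divisors for every domain `D` of the same characteristic, and for every domain
`D` of characteristic zero.
(3) If `L` is a field, `V` a valuation ring of `L` with a homomorphism to a field `K` such that `K[G]`
has no zero divisors, then `L[G]` has no zero divisors.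
(4) The absence of zero divisors is independent of the coefficient domain if and only if, for all groups
`G` such that `ℤ[G]` has no zero divisors and all primes `p`, the group ring of `G` over the algebraic
closure of the field with `p` elements has no zero divisors.
(5) Suppose that for every nonconstant polynomial `f` over `ℤ` and all `N ≠ 0` there is a prime `p`
which does not divide `N`, such that `f` has a root modulo `p`, and the group ring of `G` over the field
with `p` elements has no zero divisors. Then `D[G]` has no zero divisors for all domains `D` of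
characteristic zero.
(6) In particular this is the case if the group rings of `G` over the fields with `p` elements have no
zero divisors, for all primes `p` with finitely many exceptions. -/
theorem result :
    (∀ (G : Type u) [Group G] (R : Type v) [CommRing R] [IsDomain R],
      NoZeroDivisors (MonoidAlgebra R G) → NoZeroDivisors (MonoidAlgebra ℤ G)) ∧
    (∀ (G : Type u) [Group G] (R : Type v) [CommRing R] [IsDomain R] (K : Type z) [Field K]
      [IsAlgClosed K], (K →+* R) → NoZeroDivisors (MonoidAlgebra R G) →
      ∀ (D : Type w) [CommRing D] [IsDomain D], (ringChar D = ringChar R ∨ CharZero D) →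
        NoZeroDivisors (MonoidAlgebra D G)) ∧
    (∀ (G : Type u) [Group G] (L : Type v) [Field L] (V : ValuationSubring L) (K : Type z) [Field K],
      (V →+* K) → NoZeroDivisors (MonoidAlgebra K G) → NoZeroDivisors (MonoidAlgebra L G)) ∧
    (Independence.{u, v, w} ↔ ∀ (G : Type u) [Group G], NoZeroDivisors (MonoidAlgebra ℤ G) →
      ∀ (p : ℕ) [Fact p.Prime],
        NoZeroDivisors (MonoidAlgebra (AlgebraicClosure (ZMod p)) G)) ∧
    (∀ (G : Type u) [Group G], (∀ f : Polynomial ℤ, 0 < f.natDegree → ∀ N : ℤ, N ≠ 0 →
      ∃ p : ℕ, p.Prime ∧ NoZeroDivisors (MonoidAlgebra (ZMod p) G) ∧ ¬ (p : ℤ) ∣ N ∧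
        ∃ r : ℤ, (p : ℤ) ∣ f.eval r) →
      ∀ (D : Type v) [CommRing D] [IsDomain D] [CharZero D],
        NoZeroDivisors (MonoidAlgebra D G)) ∧
    (∀ (G : Type u) [Group G],
      {p : ℕ | p.Prime ∧ ¬ NoZeroDivisors (MonoidAlgebra (ZMod p) G)}.Finite →
      ∀ (D : Type v) [CommRing D] [IsDomain D] [CharZero D],
        NoZeroDivisors (MonoidAlgebra D G)) := by
  have part1 : ∀ (G : Type u) [Group G] (R : Type v) [CommRing R] [IsDomain R],
      NoZeroDivisors (MonoidAlgebra R G) → NoZeroDivisors (MonoidAlgebra ℤ G) := by
    intro G _ R _ _ h
    rw [nzd_iff] at h ⊢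
    exact Pool.Agent.Y84.ZD.int_of_any R h
  refine ⟨part1, ?_, ?_, ?_, ?_, ?_⟩
  · intro G _ R _ _ K _ _ φ h D _ _ hD
    rw [nzd_iff] at h ⊢
    have hK : Pool.Agent.Y84.ZD.NZD K G := h.of_inj φ φ.injective
    have hRK : CharP K (ringChar R) := (RingHom.charP_iff φ φ.injective _).2 inferInstance
    by_cases hz : ringChar D = ringChar R
    · have hDR : CharP D (ringChar R) := by rw [← hz]; infer_instance
      exact Pool.Agent.Y84.ZD.same_char hK (ringChar R)
    · have hD0 : CharZero D := hD.resolve_left hz
      have hne : ringChar R ≠ 0 := by
        intro h0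
        apply hz
        rw [h0]
        exact (CharP.ringChar_zero_iff_CharZero D).2 hD0
      have hp : Fact (ringChar R).Prime :=
        ⟨(CharP.char_is_prime_or_zero R (ringChar R)).resolve_right hne⟩
      exact Pool.Agent.Y84.ZD.char_zero (ringChar R) hK
  · intro G _ L _ V K _ χ h
    rw [nzd_iff] at h ⊢
    exact Pool.Agent.Y84.ZD.place V χ h
  · constructor
    · intro h G _ hG p _
      have i1 : IsDomain (ULift.{v} ℤ) :=
        MulEquiv.isDomain ℤ (ULift.ringEquiv : ULift.{v} ℤ ≃+* ℤ).toMulEquiv
      have i2 : IsDomain (ULift.{w} (AlgebraicClosure (ZMod p))) :=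
        MulEquiv.isDomain (AlgebraicClosure (ZMod p)) (ULift.ringEquiv :
          ULift.{w} (AlgebraicClosure (ZMod p)) ≃+* AlgebraicClosure (ZMod p)).toMulEquiv
      have h1 : NoZeroDivisors (MonoidAlgebra (ULift.{v} ℤ) G) := by
        rw [nzd_iff] at hG ⊢
        exact hG.of_inj (ULift.ringEquiv : ULift.{v} ℤ ≃+* ℤ).toRingHom
          (ULift.ringEquiv : ULift.{v} ℤ ≃+* ℤ).injective
      have h2 := h G (ULift.{v} ℤ) (ULift.{w} (AlgebraicClosure (ZMod p))) h1
      rw [nzd_iff] at h2 ⊢
      exact h2.of_inj (ULift.ringEquiv :
          ULift.{w} (AlgebraicClosure (ZMod p)) ≃+* AlgebraicClosure (ZMod p)).symm.toRingHom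
        (ULift.ringEquiv :
          ULift.{w} (AlgebraicClosure (ZMod p)) ≃+* AlgebraicClosure (ZMod p)).symm.injective
    · intro h G _ R _ _ D _ _ hR
      have hZ := part1 G R hR
      rw [nzd_iff]
      rcases CharP.char_is_prime_or_zero D (ringChar D) with hp | hp
      · have hpp : Fact (ringChar D).Prime := ⟨hp⟩
        have h1 := h G hZ (ringChar D)
        rw [nzd_iff] at h1
        exact Pool.Agent.Y84.ZD.same_char h1 (ringChar D)
      · have h0 : CharZero D := (CharP.ringChar_zero_iff_CharZero D).1 hp
        have h1 := h G hZ 2
        rw [nzd_iff] at h1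
        exact Pool.Agent.Y84.ZD.char_zero 2 h1
  · intro G _ h D _ _ _
    rw [nzd_iff]
    simp only [nzd_iff] at h
    exact Pool.Agent.Y84.ZD.many_primes h D
  · intro G _ h D _ _ _
    rw [nzd_iff]
    simp only [nzd_iff] at h
    exact Pool.Agent.Y84.ZD.almost_all h D

end Pool.Agent.Results.MP_b3f03e_al.ReductionToAlgebraicClosures
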